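import Pool.Agent.Helper479.Sink.NoSink

/-! Integer data and checkers for the 12-vertex triangulation with short edges (MP_b37e0c_co). -/

namespace Pool.Agent.R157.Short

open Helper479.Sink (Z3 T2 toR dR)

/-- The twelve (unnormalised) vertices. -/
def Pl : List Z3 := [⟨58,71,3⟩, ⟨53,63,-40⟩, ⟨-42,47,67⟩, ⟨-3,-1,92⟩, ⟨66,-64,5⟩, ⟨-59,-59,39⟩, ⟨41,-53,63⟩, ⟨47,59,53⟩, ⟨-67,63,-5⟩, ⟨-24,-32,-83⟩, ⟨86,-10,-32⟩, ⟨35,40,-75⟩]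

def P (i : ℕ) : Z3 := Pl.getD i ⟨0,0,0⟩

/-- The twenty faces. -/
def Fl : List (ℕ × ℕ × ℕ) := [(3,6,7), (5,8,9), (2,5,6), (1,10,9), (1,7,10), (11,0,7), (1,11,7), (0,3,7), (8,2,0), (1,9,11), (4,6,5), (6,4,10), (4,9,10), (4,5,9), (11,8,0), (3,2,6), (3,0,2), (2,8,5), (11,9,8), (10,7,6)]

def F (f : ℕ) : ℕ × ℕ × ℕ := Fl.getD f (0,0,0)

/-- The thirty edges. -/
def El : List (ℕ × ℕ) := [(0,2), (0,3), (0,7), (0,8), (0,11), (1,7), (1,9), (1,10), (1,11), (2,3), (2,5), (2,6), (2,8), (3,6), (3,7), (4,5), (4,6), (4,9), (4,10), (5,6), (5,8), (5,9), (6,7), (6,10), (7,10), (7,11), (8,9), (8,11), (9,10), (9,11)]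

/-- coefficient vector of vertex `i` in the determinant of face `g` -/
def cv (g i : ℕ) : Z3 :=
  if i = (F g).1 then Z3.cross (P (F g).2.1) (P (F g).2.2)
  else if i = (F g).2.1 then Z3.cross (P (F g).2.2) (P (F g).1)
  else if i = (F g).2.2 then Z3.cross (P (F g).1) (P (F g).2.1)
  else ⟨0,0,0⟩

def W (lam : List (ℕ × ℕ)) (i : ℕ) : Z3 :=
  lam.foldr (fun p acc => Z3.add (Z3.smul p.2 (cv p.1 i)) acc) ⟨0,0,0⟩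

def inF (f : ℕ) (c : Z3) : Bool :=
  decide (0 ≤ Z3.dot (cv f (F f).1) c) && decide (0 ≤ Z3.dot (cv f (F f).2.1) c) &&
    decide (0 ≤ Z3.dot (cv f (F f).2.2) c)

def check2 : T2 → Z3 → Z3 → Z3 → Bool
  | .L f, c0, c1, c2 => decide (f < 20) && inF f c0 && inF f c1 && inF f c2
  | .N 0 a b g m l r, c0, c1, c2 =>
      decide (0 < a) && decide (0 < b) && decide (0 < g) &&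
      decide (Z3.smul g m = Z3.add (Z3.smul a c0) (Z3.smul b c1)) && check2 l c0 m c2 && check2 r m c1 c2
  | .N 1 a b g m l r, c0, c1, c2 =>
      decide (0 < a) && decide (0 < b) && decide (0 < g) &&
      decide (Z3.smul g m = Z3.add (Z3.smul a c1) (Z3.smul b c2)) && check2 l c0 c1 m && check2 r c0 m c2
  | .N _ a b g m l r, c0, c1, c2 =>
      decide (0 < a) && decide (0 < b) && decide (0 < g) &&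
      decide (Z3.smul g m = Z3.add (Z3.smul a c2) (Z3.smul b c0)) && check2 l m c1 c2 && check2 r c0 c1 m

def oc0 : T2 :=
 (.N 1 71 3 1 ⟨0,71,3⟩
  (.N 2 1 58 1 ⟨58,71,3⟩
   (.L 8)
   (.N 0 89 544 1 ⟨89,544,0⟩
    (.N 0 3917 11 544 ⟨9,11,0⟩
     (.N 2 5699 1879 1 ⟨332421,404629,17097⟩
      (.N 2 35534 33 1879 ⟨6935,8449,357⟩
       (.L 5)
       (.N 0 5 35534 3 ⟨660637,804673,28495⟩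
        (.L 6)
        (.L 5)))
      (.N 0 288 5699 11 ⟨4689,5699,0⟩
       (.N 2 97 136189108 5699 ⟨29555,6887,291⟩
        (.L 4)
        (.N 0 2012834 97 5699 ⟨433,97,0⟩
         (.L 19)
         (.L 4)))
       (.N 1 35534 5 3 ⟨660637,804673,28495⟩
        (.N 0 55 5777 288 ⟨1076,1309,0⟩
         (.L 6)
         (.L 5))
        (.L 6))))
     (.L 14))
    (.L 8)))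
  (.N 1 59 3586 71 ⟨0,59,53⟩
   (.N 0 58 1 1 ⟨58,71,3⟩
    (.N 2 1307 61428 1 ⟨61428,77113,69271⟩
     (.L 16)
     (.N 2 1 1 1307 ⟨47,59,53⟩
      (.L 7)
      (.N 0 1879 5699 1 ⟨332421,404629,17097⟩
       (.N 0 136189108 97 5699 ⟨29555,6887,291⟩
        (.L 19)
        (.L 4))
       (.N 0 33 35534 1879 ⟨6935,8449,357⟩
        (.L 6)
        (.L 5)))))
    (.N 1 8227 33466 1793 ⟨0,1427,1003⟩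
     (.L 8)
     (.L 16)))
   (.N 0 47 1 1 ⟨47,59,53⟩
    (.N 2 3263 2455 1 ⟨2455,0,3263⟩
     (.L 0)
     (.L 19))
    (.N 1 130 257607 59 ⟨0,130,4483⟩
     (.N 1 1 20476 85869 ⟨0,31,1069⟩
      (.N 0 61428 1 47 ⟨61428,77113,69271⟩
       (.L 7)
       (.L 16))
      (.L 7))
     (.L 0)))))

def oc1 : T2 :=
 (.N 1 63 40 1 ⟨0,63,-40⟩
  (.N 0 89 544 1 ⟨89,544,0⟩
   (.N 2 33 1741 1 ⟨1741,2079,-1320⟩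
    (.L 14)
    (.N 0 3917 11 544 ⟨9,11,0⟩
     (.N 2 1 8 33 ⟨53,63,-40⟩
      (.N 2 109 6875 8 ⟨69268,82467,-52360⟩
       (.L 5)
       (.N 0 55 109 8 ⟨487,583,-275⟩
        (.L 6)
        (.L 5)))
      (.N 0 288 5699 11 ⟨4689,5699,0⟩
       (.N 2 97 37978 1 ⟨43119,6111,-3880⟩
        (.L 4)
        (.N 0 2012834 97 5699 ⟨433,97,0⟩
         (.L 19)
         (.L 4)))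
       (.N 1 109 55 8 ⟨487,583,-275⟩
        (.N 0 55 5777 288 ⟨1076,1309,0⟩
         (.L 6)
         (.L 5))
        (.L 6))))
     (.L 14)))
   (.N 1 330833 89 40 ⟨0,8411,-89⟩
    (.L 8)
    (.L 14)))
  (.N 2 625 441 1 ⟨441,0,-625⟩
   (.N 0 1 8 63 ⟨7,8,-15⟩
    (.N 2 60563 4 441 ⟨4,0,-143⟩
     (.L 18)
     (.N 2 119803 12 60563 ⟨8,0,-283⟩
      (.L 9)
      (.N 0 3 119803 8 ⟨104993,119803,-224865⟩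
       (.L 3)
       (.L 9))))
    (.N 1 977 26440 63 ⟨0,977,-1040⟩
     (.L 14)
     (.L 18)))
   (.N 0 53 1 1 ⟨53,63,-40⟩
    (.N 2 604 663011 625 ⟨1487,0,-604⟩
     (.L 3)
     (.N 2 97 94945 604 ⟨396,0,-97⟩
      (.L 4)
      (.N 0 37978 97 1 ⟨43119,6111,-3880⟩
       (.L 19)
       (.L 4))))
    (.N 1 119803 14999 63 ⟨104993,119803,-224865⟩
     (.N 1 3 1 14999 ⟨7,8,-15⟩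
      (.N 0 1741 8 53 ⟨1741,2079,-1320⟩
       (.N 0 6875 109 8 ⟨69268,82467,-52360⟩
        (.L 6)
        (.L 5))
       (.L 14))
      (.L 9))
     (.L 3)))))

def oc2 : T2 :=
 (.N 1 64 5 1 ⟨0,-64,5⟩
  (.N 2 1 66 1 ⟨66,-64,5⟩
   (.L 13)
   (.N 0 47 48 1 ⟨47,-48,0⟩
    (.N 0 11705 1049 48 ⟨1271,-1049,0⟩
     (.N 2 1163 128232 1 ⟨204990,-74432,5815⟩
      (.L 11)
      (.N 0 2051712 1163 1049 ⟨3365,-1163,0⟩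
       (.L 19)
       (.L 11)))
     (.L 12))
    (.L 13)))
  (.N 1 53 3767 64 ⟨0,-53,63⟩
   (.N 2 1 41 1 ⟨41,-53,63⟩
    (.N 1 33825 156247 3767 ⟨0,-2773,2658⟩
     (.N 1 12431123 145266 156247 ⟨0,-7670,2869⟩
      (.N 0 72633 210697 1 ⟨2977953,-17334157,5629364⟩
       (.L 10)
       (.L 13))
      (.L 10))
     (.L 2))
    (.N 0 66 1 1 ⟨66,-64,5⟩
     (.N 0 128232 1163 1 ⟨204990,-74432,5815⟩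
      (.L 19)
      (.L 11))
     (.N 1 210697 72633 1 ⟨2977953,-17334157,5629364⟩
      (.L 13)
      (.L 10))))
   (.N 0 41 1 1 ⟨41,-53,63⟩
    (.N 2 3263 2455 1 ⟨2455,0,3263⟩
     (.L 0)
     (.L 19))
    (.N 1 299 266992 53 ⟨0,-299,5393⟩
     (.L 2)
     (.N 1 200 105739 299 ⟨0,-200,3961⟩
      (.L 15)
      (.L 0))))))

def oc3 : T2 :=
 (.N 1 5 16 1 ⟨0,-5,-16⟩
  (.N 2 1 43 1 ⟨43,-5,-16⟩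
   (.N 1 4171 3953 16 ⟨0,-1496,-3953⟩
    (.N 1 56184 47 3953 ⟨0,-32,-47⟩
     (.N 0 47 2341 1 ⟨2021,-2576,-752⟩
      (.L 12)
      (.L 13))
     (.L 12))
    (.L 3))
   (.N 0 1271 1049 1 ⟨1271,-1049,0⟩
    (.N 0 2051712 1163 1049 ⟨3365,-1163,0⟩
     (.L 19)
     (.L 11))
    (.N 1 2341 47 1 ⟨2021,-2576,-752⟩
     (.N 0 47 11705 1271 ⟨47,-48,0⟩
      (.L 12)
      (.L 13))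
     (.L 12))))
  (.N 2 283 8 1 ⟨8,0,-283⟩
   (.N 1 8 1037 5 ⟨0,-8,-233⟩
    (.L 3)
    (.N 1 4 9 1 ⟨0,-32,-941⟩
     (.L 9)
     (.N 2 3 1 2 ⟨4,0,-143⟩
      (.L 18)
      (.L 9))))
   (.N 2 604 415989 283 ⟨1487,0,-604⟩
    (.L 3)
    (.N 0 43 1 1 ⟨43,-5,-16⟩
     (.N 2 97 94945 604 ⟨396,0,-97⟩
      (.L 4)
      (.L 19))
     (.L 3)))))

def oc4 : T2 :=
 (.N 1 47 67 1 ⟨0,47,67⟩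
  (.N 2 1 42 1 ⟨-42,47,67⟩
   (.N 1 48468 1003 67 ⟨0,1427,1003⟩
    (.L 8)
    (.L 16))
   (.N 0 4699 4456 1 ⟨-4699,4456,0⟩
    (.N 2 1081 279881 1 ⟨-325283,50807,72427⟩
     (.L 17)
     (.N 0 1399405 1081 4456 ⟨-1454,1081,0⟩
      (.L 1)
      (.L 17)))
    (.L 8)))
  (.N 2 1307 31 1 ⟨-31,0,1307⟩
   (.N 1 31 48166 47 ⟨0,31,1069⟩
    (.L 16)
    (.N 1 130 3 31 ⟨0,130,4483⟩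
     (.L 7)
     (.N 2 1 130 31 ⟨-130,0,5481⟩
      (.L 0)
      (.L 7))))
   (.N 0 42 1 1 ⟨-42,47,67⟩
    (.N 2 4391 103060 1307 ⟨-183,0,4391⟩
     (.L 16)
     (.N 2 5786 21998303 4391 ⟨-5251,0,5786⟩
      (.N 2 690734 2579 468049 ⟨-299,0,6512⟩
       (.L 15)
       (.L 2))
      (.N 2 1081 16512979 5786 ⟨-3835,0,1081⟩
       (.L 17)
       (.N 0 279881 1081 1 ⟨-325283,50807,72427⟩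
        (.L 1)
        (.L 17)))))
    (.L 16))))

def oc5 : T2 :=
 (.N 1 63 5 1 ⟨0,63,-5⟩
  (.N 2 1 67 1 ⟨-67,63,-5⟩
   (.N 1 36448 89 5 ⟨0,8411,-89⟩
    (.L 8)
    (.L 14))
   (.N 0 4699 4456 1 ⟨-4699,4456,0⟩
    (.N 0 1399405 1081 4456 ⟨-1454,1081,0⟩
     (.L 1)
     (.L 17))
    (.L 8)))
  (.N 0 67 1 1 ⟨-67,63,-5⟩
   (.N 2 5389 3656 1 ⟨-3656,0,-5389⟩
    (.L 18)
    (.L 1))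
   (.N 1 977 60635 63 ⟨0,977,-1040⟩
    (.L 14)
    (.L 18))))

def oc6 : T2 :=
 (.N 1 1 92 1 ⟨0,-1,92⟩
  (.N 1 5389 39 92 ⟨0,-59,39⟩
   (.N 2 1 59 1 ⟨-59,-59,39⟩
    (.N 1 129859 2869 39 ⟨0,-7670,2869⟩
     (.L 13)
     (.L 10))
    (.N 0 5833 6145 1 ⟨-5833,-6145,0⟩
     (.L 1)
     (.L 13)))
   (.N 2 5786 485407 1 ⟨-485407,-5786,532312⟩
    (.N 1 22115 306526 5389 ⟨0,-299,5393⟩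
     (.N 1 1287277 4425 27866 ⟨0,-2773,2658⟩
      (.N 0 4425 169198433 1 ⟨-2147925975,-10008310597,8954219487⟩
       (.L 2)
       (.L 10))
      (.L 2))
     (.N 2 3033012994 22115 485407 ⟨-22115,-6512,599104⟩
      (.N 2 2579 3 22115 ⟨-3,-1,92⟩
       (.N 1 14439 105739 22115 ⟨0,-200,3961⟩
        (.L 15)
        (.L 0))
       (.L 15))
      (.L 2)))
    (.N 0 59 1 1 ⟨-59,-59,39⟩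
     (.N 2 1081 1508278709 5786 ⟨-351366,-1081,99452⟩
      (.L 17)
      (.L 1))
     (.N 1 169198433 4425 1 ⟨-2147925975,-10008310597,8954219487⟩
      (.L 10)
      (.L 2)))))
  (.N 0 3 1 1 ⟨-3,-1,92⟩
   (.N 2 1307 31 1 ⟨-31,0,1307⟩
    (.N 2 1 130 31 ⟨-130,0,5481⟩
     (.L 0)
     (.L 7))
    (.N 2 4391 103060 1307 ⟨-183,0,4391⟩
     (.L 16)
     (.N 2 6512 121213 4391 ⟨-299,0,6512⟩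
      (.L 15)
      (.N 0 2579 6512 1 ⟨-22115,-6512,599104⟩
       (.N 2 263 1475659 296 ⟨-5251,0,5786⟩
        (.L 2)
        (.N 0 137864227 263 296 ⟨-485407,-5786,532312⟩
         (.N 2 1081 16512979 5786 ⟨-3835,0,1081⟩
          (.L 17)
          (.N 0 1508278709 1081 5786 ⟨-351366,-1081,99452⟩
           (.L 1)
           (.L 17)))
         (.L 2)))
       (.L 15)))))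
   (.L 0)))

def oc7 : T2 :=
 (.N 1 32 83 1 ⟨0,-32,-83⟩
  (.N 2 1 24 1 ⟨-24,-32,-83⟩
   (.N 1 1152 47 83 ⟨0,-32,-47⟩
    (.L 13)
    (.L 12))
   (.N 0 5833 6145 1 ⟨-5833,-6145,0⟩
    (.L 1)
    (.L 13)))
  (.N 0 24 1 1 ⟨-24,-32,-83⟩
   (.N 2 5389 3656 1 ⟨-3656,0,-5389⟩
    (.L 18)
    (.L 1))
   (.N 1 1 849 4 ⟨0,-8,-233⟩
    (.N 1 13206 97 283 ⟨0,-1496,-3953⟩
     (.L 12)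
     (.L 3))
    (.N 1 4 9 1 ⟨0,-32,-941⟩
     (.L 9)
     (.L 18)))))

def FFl : List (List Z3) := [[⟨4813,3961,200⟩, ⟨6512,5393,299⟩, ⟨-1849,4979,5392⟩, ⟨-3263,394,2455⟩, ⟨-3263,394,2455⟩, ⟨5699,-4689,166⟩, ⟨5481,-4483,130⟩, ⟨1154,-1003,1427⟩, ⟨-1849,4979,5392⟩, ⟨3767,3953,874⟩, ⟨-3263,394,2455⟩, ⟨-3687,-3263,6902⟩, ⟨2201,2869,7670⟩, ⟨-544,89,8411⟩, ⟨4813,3961,200⟩, ⟨1307,-1069,31⟩, ⟨5786,-2315,5251⟩, ⟨-1817,-1658,3457⟩, ⟨-3263,394,2455⟩],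
  [⟨-5786,2315,-5251⟩, ⟨-283,233,-8⟩, ⟨-5699,4689,-166⟩, ⟨-5797,4742,-152⟩, ⟨-291,239,-8⟩, ⟨-2946,2439,-767⟩, ⟨-4456,-4699,503⟩, ⟨-5389,-5441,3656⟩, ⟨-2201,-2869,-7670⟩, ⟨-3767,-3953,-874⟩, ⟨-48,-47,32⟩, ⟨-6145,5833,-472⟩, ⟨-5389,-5441,3656⟩, ⟨-5786,2315,-5251⟩, ⟨-4391,-3663,-183⟩, ⟨-1081,-1454,-3835⟩, ⟨-5389,-5441,3656⟩, ⟨-1357,1240,-177⟩],
  [⟨97,293,590⟩, ⟨-6512,-5393,-299⟩, ⟨-6512,-5393,-299⟩, ⟨-6512,-5393,-299⟩, ⟨-4391,-3663,-183⟩, ⟨1154,-1003,1427⟩, ⟨97,293,590⟩, ⟨-825,2658,2773⟩, ⟨-6512,-5393,-299⟩, ⟨2201,2869,7670⟩, ⟨2201,2869,7670⟩, ⟨1154,-1003,1427⟩, ⟨-6512,-5393,-299⟩, ⟨-4391,-3663,-183⟩, ⟨5786,-2315,5251⟩, ⟨5786,-2315,5251⟩, ⟨-6512,-5393,-299⟩],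
  [⟨-604,-436,-1487⟩, ⟨283,-233,8⟩, ⟨283,-233,8⟩, ⟨1439,-1189,34⟩, ⟨544,-89,-8411⟩, ⟨283,-233,8⟩, ⟨-2201,-2869,-7670⟩, ⟨-604,-436,-1487⟩, ⟨-97,3953,-1496⟩, ⟨48,47,-32⟩, ⟨283,-233,8⟩, ⟨1849,-4979,-5392⟩, ⟨1307,-1069,31⟩, ⟨-97,-293,-590⟩, ⟨283,-233,8⟩, ⟨-604,-436,-1487⟩],
  [⟨5699,-4689,166⟩, ⟨5699,-4689,166⟩, ⟨3586,-2933,85⟩, ⟨3029,-2479,109⟩, ⟨5699,-4689,166⟩, ⟨3767,3953,874⟩, ⟨1163,3365,2074⟩, ⟨1049,1271,2422⟩, ⟨48,47,-32⟩, ⟨3029,-2479,109⟩, ⟨4391,3663,183⟩, ⟨1307,-1069,31⟩, ⟨6101,-1871,5137⟩, ⟨5699,-4689,166⟩, ⟨-97,433,-396⟩],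
  [⟨-1309,1076,-37⟩, ⟨3586,-2933,85⟩, ⟨3586,-2933,85⟩, ⟨-625,515,-17⟩, ⟨3767,3953,874⟩, ⟨1163,3365,2074⟩, ⟨-97,3953,-1496⟩, ⟨48,47,-32⟩, ⟨33,-27,1⟩, ⟨4391,3663,183⟩, ⟨1307,-1069,31⟩, ⟨3586,-2933,85⟩, ⟨33,-27,1⟩, ⟨-97,433,-396⟩],
  [⟨3586,-2933,85⟩, ⟨3586,-2933,85⟩, ⟨-625,515,-17⟩, ⟨3767,3953,874⟩, ⟨-5699,4689,-166⟩, ⟨-283,233,-8⟩, ⟨48,47,-32⟩, ⟨33,-27,1⟩, ⟨4391,3663,183⟩, ⟨1307,-1069,31⟩, ⟨4456,4699,-503⟩, ⟨1309,-1076,37⟩, ⟨-5699,4689,-166⟩],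
  [⟨1154,-1003,1427⟩, ⟨3029,-2479,109⟩, ⟨1961,2029,86⟩, ⟨-1544,1177,1995⟩, ⟨-547,92,8398⟩, ⟨1961,2029,86⟩, ⟨-544,89,8411⟩, ⟨4391,3663,183⟩, ⟨1307,-1069,31⟩, ⟨1307,-1069,31⟩, ⟨-544,89,8411⟩, ⟨-3586,2933,-85⟩],
  [⟨-544,89,8411⟩, ⟨-1154,1003,-1427⟩, ⟨-1154,1003,-1427⟩, ⟨-547,92,8398⟩, ⟨4456,4699,-503⟩, ⟨-544,89,8411⟩, ⟨-1154,1003,-1427⟩, ⟨-1154,1003,-1427⟩, ⟨4456,4699,-503⟩, ⟨-544,89,8411⟩, ⟨-1154,1003,-1427⟩],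
  [⟨-2201,-2869,-7670⟩, ⟨-283,233,-8⟩, ⟨-283,233,-8⟩, ⟨48,47,-32⟩, ⟨625,-515,17⟩, ⟨-6101,1871,-5137⟩, ⟨-1154,1003,-1427⟩, ⟨-97,-293,-590⟩, ⟨1144,-941,32⟩, ⟨-5699,4689,-166⟩],
  [⟨-3767,-3953,-874⟩, ⟨2201,2869,7670⟩, ⟨2201,2869,7670⟩, ⟨2946,-2439,767⟩, ⟨-3767,-3953,-874⟩, ⟨-1961,-2029,-86⟩, ⟨5786,-2315,5251⟩, ⟨2201,2869,7670⟩, ⟨-3767,-3953,-874⟩],
  [⟨1049,1271,2422⟩, ⟨3767,3953,874⟩, ⟨1121,-1057,3343⟩, ⟨4813,3961,200⟩, ⟨1307,-1069,31⟩, ⟨5786,-2315,5251⟩, ⟨1049,1271,2422⟩, ⟨-1163,-3365,-2074⟩],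
  [⟨48,47,-32⟩, ⟨97,-3953,1496⟩, ⟨48,47,-32⟩, ⟨1307,-1069,31⟩, ⟨1,-1,-26⟩, ⟨97,-3953,1496⟩, ⟨-1049,-1271,-2422⟩],
  [⟨6145,-5833,472⟩, ⟨-2201,-2869,-7670⟩, ⟨-1961,-2029,-86⟩, ⟨-1081,-1454,-3835⟩, ⟨6145,-5833,472⟩, ⟨-3767,-3953,-874⟩],
  [⟨-1154,1003,-1427⟩, ⟨-1154,1003,-1427⟩, ⟨544,-89,-8411⟩, ⟨905,1040,977⟩, ⟨-1121,1057,-3343⟩],
  [⟨-4391,-3663,-183⟩, ⟨5786,-2315,5251⟩, ⟨-1757,-5094,2472⟩, ⟨-4813,-3961,-200⟩],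
  [⟨4391,3663,183⟩, ⟨1154,-1003,1427⟩, ⟨-1307,1069,-31⟩],
  [⟨1081,1454,3835⟩, ⟨-5786,2315,-5251⟩],
  [⟨-97,433,-396⟩]]

def EEl : List (List Z3) := [[⟨-1307,1069,-31⟩, ⟨-3586,2933,-85⟩, ⟨-544,89,8411⟩, ⟨-33,27,-1⟩, ⟨-5699,4689,-166⟩, ⟨-283,233,-8⟩, ⟨604,436,1487⟩, ⟨-625,515,-17⟩, ⟨4391,3663,183⟩, ⟨5786,-2315,5251⟩, ⟨6512,5393,299⟩, ⟨4456,4699,-503⟩, ⟨2,5,-1⟩, ⟨-5481,4483,-130⟩, ⟨2201,2869,7670⟩, ⟨3767,3953,874⟩, ⟨0,5,2⟩, ⟨1049,1271,2422⟩, ⟨-825,2658,2773⟩, ⟨1081,1454,3835⟩, ⟨-6145,5833,-472⟩, ⟨-10,9,-3⟩, ⟨1163,3365,2074⟩, ⟨-10,9,-3⟩, ⟨-1309,1076,-37⟩, ⟨3,2,5⟩, ⟨905,1040,977⟩, ⟨-97,3953,-1496⟩, ⟨-1144,941,-32⟩],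
  [⟨-3586,2933,-85⟩, ⟨-544,89,8411⟩, ⟨33,-27,1⟩, ⟨-1000000,817910,-23713⟩, ⟨5,-4,1⟩, ⟨604,436,1487⟩, ⟨5,-4,1⟩, ⟨4391,3663,183⟩, ⟨5786,-2315,5251⟩, ⟨6512,5393,299⟩, ⟨5,1,1⟩, ⟨4813,3961,200⟩, ⟨-5481,4483,-130⟩, ⟨2201,2869,7670⟩, ⟨3767,3953,874⟩, ⟨0,2,5⟩, ⟨1049,1271,2422⟩, ⟨-825,2658,2773⟩, ⟨1081,1454,3835⟩, ⟨5,-3,1⟩, ⟨-1000000,817910,-23713⟩, ⟨1163,3365,2074⟩, ⟨-1000000,817910,-23713⟩, ⟨-1000000,817910,-23713⟩, ⟨5,0,4⟩, ⟨905,1040,977⟩, ⟨0,3,5⟩, ⟨-50,41,-1⟩],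
  [⟨-544,89,8411⟩, ⟨33,-27,1⟩, ⟨-5699,4689,-166⟩, ⟨-283,233,-8⟩, ⟨604,436,1487⟩, ⟨-625,515,-17⟩, ⟨4391,3663,183⟩, ⟨5786,-2315,5251⟩, ⟨6512,5393,299⟩, ⟨4456,4699,-503⟩, ⟨4813,3961,200⟩, ⟨-5481,4483,-130⟩, ⟨2201,2869,7670⟩, ⟨3767,3953,874⟩, ⟨48,47,-32⟩, ⟨1049,1271,2422⟩, ⟨-825,2658,2773⟩, ⟨1081,1454,3835⟩, ⟨-6145,5833,-472⟩, ⟨3263,-394,-2455⟩, ⟨1163,3365,2074⟩, ⟨-97,433,-396⟩, ⟨-1309,1076,-37⟩, ⟨5389,5441,-3656⟩, ⟨905,1040,977⟩, ⟨-97,3953,-1496⟩, ⟨-1144,941,-32⟩],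
  [⟨-33,27,-1⟩, ⟨-5699,4689,-166⟩, ⟨-283,233,-8⟩, ⟨-2,2,5⟩, ⟨-625,515,-17⟩, ⟨2,3,-5⟩, ⟨2,3,-5⟩, ⟨2,3,-5⟩, ⟨4456,4699,-503⟩, ⟨3,4,-5⟩, ⟨-5481,4483,-130⟩, ⟨-1,4,-5⟩, ⟨0,1,-5⟩, ⟨0,5,2⟩, ⟨0,2,5⟩, ⟨-825,2658,2773⟩, ⟨1081,1454,3835⟩, ⟨-6145,5833,-472⟩, ⟨-1,2,-5⟩, ⟨1163,3365,2074⟩, ⟨-97,433,-396⟩, ⟨-1309,1076,-37⟩, ⟨5389,5441,-3656⟩, ⟨905,1040,977⟩, ⟨-97,3953,-1496⟩, ⟨-1144,941,-32⟩],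
  [⟨-5699,4689,-166⟩, ⟨-283,233,-8⟩, ⟨-100,82,-3⟩, ⟨-625,515,-17⟩, ⟨4391,3663,183⟩, ⟨1,5,-3⟩, ⟨6512,5393,299⟩, ⟨4456,4699,-503⟩, ⟨4813,3961,200⟩, ⟨5,-4,0⟩, ⟨-1,2,-5⟩, ⟨3767,3953,874⟩, ⟨48,47,-32⟩, ⟨-2,3,-5⟩, ⟨-4,5,-5⟩, ⟨2,1,-10⟩, ⟨-6145,5833,-472⟩, ⟨3263,-394,-2455⟩, ⟨1163,3365,2074⟩, ⟨-97,433,-396⟩, ⟨-1309,1076,-37⟩, ⟨5389,5441,-3656⟩, ⟨905,1040,977⟩, ⟨-97,3953,-1496⟩, ⟨-1144,941,-32⟩],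
  [⟨-283,233,-8⟩, ⟨604,436,1487⟩, ⟨-625,515,-17⟩, ⟨4391,3663,183⟩, ⟨10,-5,4⟩, ⟨6512,5393,299⟩, ⟨4456,4699,-503⟩, ⟨4813,3961,200⟩, ⟨5481,-4483,130⟩, ⟨3,5,-5⟩, ⟨3767,3953,874⟩, ⟨48,47,-32⟩, ⟨1049,1271,2422⟩, ⟨-825,2658,2773⟩, ⟨5,-2,-1⟩, ⟨-6145,5833,-472⟩, ⟨3263,-394,-2455⟩, ⟨1163,3365,2074⟩, ⟨-97,433,-396⟩, ⟨1309,-1076,37⟩, ⟨5389,5441,-3656⟩, ⟨905,1040,977⟩, ⟨-97,3953,-1496⟩, ⟨20,-16,1⟩],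
  [⟨-604,-436,-1487⟩, ⟨625,-515,17⟩, ⟨-1,3,-5⟩, ⟨-5786,2315,-5251⟩, ⟨1,1,-5⟩, ⟨5,4,-5⟩, ⟨5,-2,-5⟩, ⟨5481,-4483,130⟩, ⟨-2201,-2869,-7670⟩, ⟨-2,-1,-5⟩, ⟨48,47,-32⟩, ⟨-1,5,-4⟩, ⟨1,1,-5⟩, ⟨-1081,-1454,-3835⟩, ⟨-6145,5833,-472⟩, ⟨3263,-394,-2455⟩, ⟨-1,5,-4⟩, ⟨-97,433,-396⟩, ⟨1000,-823,28⟩, ⟨5389,5441,-3656⟩, ⟨1000,-823,28⟩, ⟨-97,3953,-1496⟩, ⟨1144,-941,32⟩],
  [⟨625,-515,17⟩, ⟨4391,3663,183⟩, ⟨5,-1,0⟩, ⟨6512,5393,299⟩, ⟨4456,4699,-503⟩, ⟨4813,3961,200⟩, ⟨5481,-4483,130⟩, ⟨-2201,-2869,-7670⟩, ⟨3767,3953,874⟩, ⟨48,47,-32⟩, ⟨1049,1271,2422⟩, ⟨1,-2,-5⟩, ⟨-1081,-1454,-3835⟩, ⟨1,5,0⟩, ⟨3263,-394,-2455⟩, ⟨1163,3365,2074⟩, ⟨-97,433,-396⟩, ⟨1309,-1076,37⟩, ⟨5389,5441,-3656⟩, ⟨905,1040,977⟩, ⟨-97,3953,-1496⟩, ⟨1144,-941,32⟩],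
  [⟨4391,3663,183⟩, ⟨-5786,2315,-5251⟩, ⟨6512,5393,299⟩, ⟨4456,4699,-503⟩, ⟨4813,3961,200⟩, ⟨5481,-4483,130⟩, ⟨-2201,-2869,-7670⟩, ⟨3767,3953,874⟩, ⟨48,47,-32⟩, ⟨-5,3,-5⟩, ⟨1,-4,-5⟩, ⟨-1081,-1454,-3835⟩, ⟨-6145,5833,-472⟩, ⟨3263,-394,-2455⟩, ⟨1163,3365,2074⟩, ⟨-97,433,-396⟩, ⟨1309,-1076,37⟩, ⟨5389,5441,-3656⟩, ⟨905,1040,977⟩, ⟨-97,3953,-1496⟩, ⟨1144,-941,32⟩],
  [⟨5786,-2315,5251⟩, ⟨6512,5393,299⟩, ⟨-4456,-4699,503⟩, ⟨-4813,-3961,-200⟩, ⟨-5481,4483,-130⟩, ⟨2201,2869,7670⟩, ⟨3767,3953,874⟩, ⟨-48,-47,32⟩, ⟨1049,1271,2422⟩, ⟨-825,2658,2773⟩, ⟨1081,1454,3835⟩, ⟨4,5,4⟩, ⟨-3263,394,2455⟩, ⟨1163,3365,2074⟩, ⟨97,-433,396⟩, ⟨-1,0,0⟩, ⟨-5389,-5441,3656⟩, ⟨905,1040,977⟩, ⟨-2,-5,5⟩, ⟨-3,-5,4⟩],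
  [⟨-6512,-5393,-299⟩, ⟨-4456,-4699,503⟩, ⟨-4813,-3961,-200⟩, ⟨-5481,4483,-130⟩, ⟨2201,2869,7670⟩, ⟨-5,0,-1⟩, ⟨-48,-47,32⟩, ⟨-5,0,2⟩, ⟨-825,2658,2773⟩, ⟨1081,1454,3835⟩, ⟨-6145,5833,-472⟩, ⟨-3263,394,2455⟩, ⟨-5,0,-1⟩, ⟨97,-433,396⟩, ⟨-1309,1076,-37⟩, ⟨-5389,-5441,3656⟩, ⟨1,-3,5⟩, ⟨-5,-1,5⟩, ⟨-1144,941,-32⟩],
  [⟨-4456,-4699,503⟩, ⟨-4813,-3961,-200⟩, ⟨-300,-248,-13⟩, ⟨2201,2869,7670⟩, ⟨3767,3953,874⟩, ⟨-48,-47,32⟩, ⟨1049,1271,2422⟩, ⟨-825,2658,2773⟩, ⟨1081,1454,3835⟩, ⟨5,2,4⟩, ⟨-3263,394,2455⟩, ⟨1163,3365,2074⟩, ⟨97,-433,396⟩, ⟨-5,-3,1⟩, ⟨-5389,-5441,3656⟩, ⟨905,1040,977⟩, ⟨-4,-3,5⟩, ⟨-5,-5,4⟩],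
  [⟨-4813,-3961,-200⟩, ⟨-5481,4483,-130⟩, ⟨0,5,-1⟩, ⟨-5,-1,-2⟩, ⟨-48,-47,32⟩, ⟨-5,-1,1⟩, ⟨-825,2658,2773⟩, ⟨1081,1454,3835⟩, ⟨-6145,5833,-472⟩, ⟨-3263,394,2455⟩, ⟨1163,3365,2074⟩, ⟨-5,-5,3⟩, ⟨-1309,1076,-37⟩, ⟨-5389,-5441,3656⟩, ⟨905,1040,977⟩, ⟨-97,3953,-1496⟩, ⟨-1144,941,-32⟩],
  [⟨5481,-4483,130⟩, ⟨2201,2869,7670⟩, ⟨3767,3953,874⟩, ⟨-48,-47,32⟩, ⟨1049,1271,2422⟩, ⟨-825,2658,2773⟩, ⟨1081,1454,3835⟩, ⟨6145,-5833,472⟩, ⟨-3263,394,2455⟩, ⟨1163,3365,2074⟩, ⟨97,-433,396⟩, ⟨1309,-1076,37⟩, ⟨-5389,-5441,3656⟩, ⟨905,1040,977⟩, ⟨97,-3953,1496⟩, ⟨1144,-941,32⟩],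
  [⟨2201,2869,7670⟩, ⟨3767,3953,874⟩, ⟨-5,2,5⟩, ⟨1049,1271,2422⟩, ⟨-825,2658,2773⟩, ⟨1081,1454,3835⟩, ⟨-9,10,0⟩, ⟨-3263,394,2455⟩, ⟨1163,3365,2074⟩, ⟨97,-433,396⟩, ⟨1309,-1076,37⟩, ⟨5,3,4⟩, ⟨905,1040,977⟩, ⟨-4,5,0⟩, ⟨-5,4,0⟩],
  [⟨-3767,-3953,-874⟩, ⟨-48,-47,32⟩, ⟨-1049,-1271,-2422⟩, ⟨825,-2658,-2773⟩, ⟨-1081,-1454,-3835⟩, ⟨6145,-5833,472⟩, ⟨-2,-4,-5⟩, ⟨-1163,-3365,-2074⟩, ⟨97,-433,396⟩, ⟨-2,-5,5⟩, ⟨-5389,-5441,3656⟩, ⟨-905,-1040,-977⟩, ⟨97,-3953,1496⟩, ⟨5,-2,5⟩],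
  [⟨-48,-47,32⟩, ⟨1049,1271,2422⟩, ⟨825,-2658,-2773⟩, ⟨5,3,4⟩, ⟨6145,-5833,472⟩, ⟨3263,-394,-2455⟩, ⟨-1163,-3365,-2074⟩, ⟨97,-433,396⟩, ⟨1309,-1076,37⟩, ⟨-5389,-5441,3656⟩, ⟨3,1,5⟩, ⟨97,-3953,1496⟩, ⟨1144,-941,32⟩],
  [⟨-1049,-1271,-2422⟩, ⟨825,-2658,-2773⟩, ⟨-1081,-1454,-3835⟩, ⟨6145,-5833,472⟩, ⟨3263,-394,-2455⟩, ⟨-1163,-3365,-2074⟩, ⟨-1,-5,-1⟩, ⟨0,-5,-2⟩, ⟨-5389,-5441,3656⟩, ⟨-905,-1040,-977⟩, ⟨97,-3953,1496⟩, ⟨1144,-941,32⟩],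
  [⟨825,-2658,-2773⟩, ⟨-1081,-1454,-3835⟩, ⟨6145,-5833,472⟩, ⟨3263,-394,-2455⟩, ⟨-1163,-3365,-2074⟩, ⟨97,-433,396⟩, ⟨1309,-1076,37⟩, ⟨2,-3,5⟩, ⟨3,3,5⟩, ⟨97,-3953,1496⟩, ⟨1144,-941,32⟩],
  [⟨1081,1454,3835⟩, ⟨6145,-5833,472⟩, ⟨-3263,394,2455⟩, ⟨-1163,-3365,-2074⟩, ⟨97,-433,396⟩, ⟨-3,-4,5⟩, ⟨-5389,-5441,3656⟩, ⟨2,0,5⟩, ⟨97,-3953,1496⟩, ⟨-1,-4,5⟩],
  [⟨-6145,5833,-472⟩, ⟨-3263,394,2455⟩, ⟨-5,0,-4⟩, ⟨-5,-2,-2⟩, ⟨-1309,1076,-37⟩, ⟨-5389,-5441,3656⟩, ⟨-905,-1040,-977⟩, ⟨-5,1,3⟩, ⟨-1144,941,-32⟩],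
  [⟨-5,-2,0⟩, ⟨-1163,-3365,-2074⟩, ⟨-4,-5,-2⟩, ⟨-1309,1076,-37⟩, ⟨-5389,-5441,3656⟩, ⟨-905,-1040,-977⟩, ⟨97,-3953,1496⟩, ⟨-1144,941,-32⟩],
  [⟨1163,3365,2074⟩, ⟨97,-433,396⟩, ⟨1309,-1076,37⟩, ⟨5,0,1⟩, ⟨905,1040,977⟩, ⟨-2,3,5⟩, ⟨-3,-1,5⟩],
  [⟨97,-433,396⟩, ⟨1309,-1076,37⟩, ⟨5,0,1⟩, ⟨905,1040,977⟩, ⟨97,-3953,1496⟩, ⟨1144,-941,32⟩],
  [⟨1309,-1076,37⟩, ⟨5389,5441,-3656⟩, ⟨905,1040,977⟩, ⟨-97,3953,-1496⟩, ⟨5,-3,3⟩],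
  [⟨5389,5441,-3656⟩, ⟨905,1040,977⟩, ⟨-97,3953,-1496⟩, ⟨-1144,941,-32⟩],
  [⟨-905,-1040,-977⟩, ⟨-97,3953,-1496⟩, ⟨-1144,941,-32⟩],
  [⟨-97,3953,-1496⟩, ⟨-1144,941,-32⟩],
  [⟨1144,-941,32⟩]]

/-- The weights of the certificate of non-sinkability. -/
def LAM : List (ℕ × ℕ) := [(2,6907922239680), (4,1474473590200), (5,110595927313872), (9,51090509900430), (11,64426872510), (13,566192091465), (16,247169914459776)]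

def cornersNonneg (s : Z3) (f : ℕ) : Bool :=
  decide (0 ≤ Z3.dot s (P (F f).1)) && decide (0 ≤ Z3.dot s (P (F f).2.1)) &&
    decide (0 ≤ Z3.dot s (P (F f).2.2)) && (decide (0 < Z3.dot s (P (F f).1)) ||
    decide (0 < Z3.dot s (P (F f).2.1)) || decide (0 < Z3.dot s (P (F f).2.2)))

def cornersNonpos (s : Z3) (f : ℕ) : Bool :=
  decide (Z3.dot s (P (F f).1) ≤ 0) && decide (Z3.dot s (P (F f).2.1) ≤ 0) &&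
    decide (Z3.dot s (P (F f).2.2) ≤ 0) && (decide (Z3.dot s (P (F f).1) < 0) ||
    decide (Z3.dot s (P (F f).2.1) < 0) || decide (Z3.dot s (P (F f).2.2) < 0))

def chkFF : Bool :=
  (List.range 19).all fun f => (List.range (19 - f)).all fun k =>
    cornersNonneg ((FFl.getD f []).getD k ⟨0,0,0⟩) f &&
    cornersNonpos ((FFl.getD f []).getD k ⟨0,0,0⟩) (f + 1 + k)

/-- `s` certifies that the cones over the edges `e`, `e'` meet only along a common vertex. -/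
def sepOK (s : Z3) (e e' : ℕ × ℕ) : Bool :=
  if e.1 = e'.1 then
    decide (e.2 ≠ e'.2) && decide (Z3.dot s (P e.1) = 0) && decide (0 < Z3.dot s (P e.2)) &&
      decide (Z3.dot s (P e'.2) ≤ 0)
  else if e.1 = e'.2 then
    decide (e.2 ≠ e'.1) && decide (Z3.dot s (P e.1) = 0) && decide (0 < Z3.dot s (P e.2)) &&
      decide (Z3.dot s (P e'.1) ≤ 0)
  else if e.2 = e'.1 then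
    decide (e.1 ≠ e'.2) && decide (Z3.dot s (P e.2) = 0) && decide (0 < Z3.dot s (P e.1)) &&
      decide (Z3.dot s (P e'.2) ≤ 0)
  else if e.2 = e'.2 then
    decide (e.1 ≠ e'.1) && decide (Z3.dot s (P e.2) = 0) && decide (0 < Z3.dot s (P e.1)) &&
      decide (Z3.dot s (P e'.1) ≤ 0)
  else
    decide (0 < Z3.dot s (P e.1)) && decide (0 < Z3.dot s (P e.2)) &&
      decide (Z3.dot s (P e'.1) ≤ 0) && decide (Z3.dot s (P e'.2) ≤ 0)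

def chkEE : Bool :=
  (List.range 29).all fun a => (List.range (29 - a)).all fun k =>
    sepOK ((EEl.getD a []).getD k ⟨0,0,0⟩) (El.getD a (0,0)) (El.getD (a + 1 + k) (0,0))

theorem chkFF_true : chkFF = true := by decide +kernel

theorem chkEE_true : chkEE = true := by decide +kernel

theorem cho0 : check2 oc0 ⟨1,0,0⟩ ⟨0,1,0⟩ ⟨0,0,1⟩ = true := by decide +kernel

theorem cho1 : check2 oc1 ⟨1,0,0⟩ ⟨0,1,0⟩ ⟨0,0,-1⟩ = true := by decide +kernel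

theorem cho2 : check2 oc2 ⟨1,0,0⟩ ⟨0,-1,0⟩ ⟨0,0,1⟩ = true := by decide +kernel

theorem cho3 : check2 oc3 ⟨1,0,0⟩ ⟨0,-1,0⟩ ⟨0,0,-1⟩ = true := by decide +kernel

theorem cho4 : check2 oc4 ⟨-1,0,0⟩ ⟨0,1,0⟩ ⟨0,0,1⟩ = true := by decide +kernel

theorem cho5 : check2 oc5 ⟨-1,0,0⟩ ⟨0,1,0⟩ ⟨0,0,-1⟩ = true := by decide +kernel

theorem cho6 : check2 oc6 ⟨-1,0,0⟩ ⟨0,-1,0⟩ ⟨0,0,1⟩ = true := by decide +kernel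

theorem cho7 : check2 oc7 ⟨-1,0,0⟩ ⟨0,-1,0⟩ ⟨0,0,-1⟩ = true := by decide +kernel

/-- the third coordinates of the certificate are nonnegative -/
theorem lam_ok : (∀ p ∈ LAM, p.1 ≠ 0 ∧ p.1 < 20 ∧ 0 < p.2) ∧ ∀ i < 12, 0 ≤ (W LAM i).z := by
  decide +kernel

/-- edges are shorter than a quarter circle -/
theorem dots_pos : ∀ e ∈ El, 0 < Z3.dot (P e.1) (P e.2) := by decide +kernel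

end Pool.Agent.R157.Short
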