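import Pool.Agent.R157.Short.Spt
import Pool.Agent.Helper479.Sink.Faces

/-! The faces of the example are spherical triangles (MP_b37e0c_co). -/

namespace Pool.Agent.R157.Short

open Set Filter Topology
open Helper479.Sink (Z3 T2 toR dR toR_0 toR_1 toR_2 dR_toR dR_comb dR_smul dR_add_left dR_smul_left
  dR_zero_left Cone3 toR_add toR_smul cone_split cone_rot split_gen S2 arc skeleton IsFace
  IsTriangularFace IsSPT hA det3 flip IsMorph IsLongitudinal Sinkable len nu len_pos nu_mem nu_of_mem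
  nu_cont dR_cont dR_zero_right S2_closed)

/-- open cone of a face -/
def Oc (f : ℕ) : Set (Fin 3 → ℝ) := {x | InOpen f x}

/-- open spherical triangle of a face -/
def Uc (f : ℕ) : Set (Fin 3 → ℝ) := S2 ∩ Oc f

lemma Oc_open (f : ℕ) : IsOpen (Oc f) := by
  have : Oc f = {x | 0 < dR (cv f (F f).1) x} ∩ ({x | 0 < dR (cv f (F f).2.1) x} ∩
      {x | 0 < dR (cv f (F f).2.2) x}) := by
    ext x; rfl
  rw [this]
  exact (isOpen_lt continuous_const (dR_cont _)).inter
    ((isOpen_lt continuous_const (dR_cont _)).inter (isOpen_lt continuous_const (dR_cont _)))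

lemma Oc_ne_zero {f : ℕ} {x : Fin 3 → ℝ} (h : x ∈ Oc f) : x ≠ 0 := by
  rintro rfl
  have := h.1
  rw [dR_zero_right] at this
  exact lt_irrefl _ this

lemma Oc_convex (f : ℕ) : Convex ℝ (Oc f) := by
  intro x hx y hy a b ha hb hab
  have key : ∀ w : Z3, 0 < dR w x → 0 < dR w y → 0 < dR w (a • x + b • y) := by
    intro w h1 h2
    rw [dR_comb2]
    rcases ha.eq_or_lt with h | h
    · have : b = 1 := by linarith
      rw [← h, this]; simpa using h2
    · have := mul_pos h h1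
      have := mul_nonneg hb h2.le
      linarith
  exact ⟨key _ hx.1 hy.1, key _ hx.2.1 hy.2.1, key _ hx.2.2 hy.2.2⟩

lemma Oc_scale {f : ℕ} {x : Fin 3 → ℝ} (h : x ∈ Oc f) {t : ℝ} (ht : 0 < t) : t • x ∈ Oc f := by
  refine ⟨?_, ?_, ?_⟩ <;> rw [dR_smul]
  · exact mul_pos ht h.1
  · exact mul_pos ht h.2.1
  · exact mul_pos ht h.2.2

lemma nu_Oc {f : ℕ} {x : Fin 3 → ℝ} (h : x ∈ Oc f) : nu x ∈ Uc f :=
  ⟨nu_mem (Oc_ne_zero h), Oc_scale h (inv_pos.mpr (len_pos (Oc_ne_zero h)))⟩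

lemma Uc_eq (f : ℕ) : Uc f = nu '' Oc f := by
  ext x
  constructor
  · rintro ⟨h1, h2⟩
    exact ⟨x, h2, nu_of_mem h1⟩
  · rintro ⟨y, hy, rfl⟩
    exact nu_Oc hy

lemma Uc_preconn (f : ℕ) : IsPreconnected (Uc f) := by
  rw [Uc_eq]
  apply (Oc_convex f).isPreconnected.image
  intro x hx
  exact (nu_cont (Oc_ne_zero hx)).continuousWithinAt

lemma corner_in : ∀ f < 20, inF f (P (F f).1) = true ∧ inF f (P (F f).2.1) = true ∧
    inF f (P (F f).2.2) = true := by
  decide +kernel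

/-- for each edge and each face `f` there is another face containing the edge -/
lemma other_face : ∀ e ∈ El, ∀ f < 20, ∃ g < 20, g ≠ f ∧
    (e.1 = (F g).1 ∨ e.1 = (F g).2.1 ∨ e.1 = (F g).2.2) ∧
    (e.2 = (F g).1 ∨ e.2 = (F g).2.1 ∨ e.2 = (F g).2.2) := by
  decide +kernel

lemma corner_inCone {g i : ℕ} (hg : g < 20)
    (h : i = (F g).1 ∨ i = (F g).2.1 ∨ i = (F g).2.2) : InCone g (toR (P i)) := by
  obtain ⟨h1, h2, h3⟩ := corner_in g hg
  rcases h with rfl | rfl | rfl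
  · exact inF_nonneg h1
  · exact inF_nonneg h2
  · exact inF_nonneg h3

lemma edge_not_open {e : ℕ × ℕ} (he : e ∈ El) {f : ℕ} (hf : f < 20) {x : Fin 3 → ℝ}
    (hx : ConeE e x) : ¬ InOpen f x := by
  intro ho
  obtain ⟨g, hg, hgf, h1, h2⟩ := other_face e he f hf
  have c1 := corner_inCone hg h1
  have c2 := corner_inCone hg h2
  obtain ⟨s, t, hs, ht, rfl⟩ := hx
  refine disj hg hf hgf (inCone_comb c1 c2 c2 ⟨s, t, 0, hs, ht, le_refl _, ?_⟩) ho
  simp

lemma Uc_sub {f : ℕ} (hf : f < 20) : Uc f ⊆ S2 \ skeleton G12 v12 := by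
  rintro x ⟨h1, h2⟩
  refine ⟨h1, ?_⟩
  rintro ⟨i, j, hij, hx⟩
  have hc := arc_coneE hx
  rcases adj_edge hij with h | h
  · exact edge_not_open h hf hc h2
  · exact edge_not_open h hf hc.swap h2

/-- if a boundary functional of face `f` vanishes at `x`, then `x` is on the corresponding edge -/
lemma on_edge {f : ℕ} (hf : f < 20) {x : Fin 3 → ℝ} (hx : InCone f x) :
    (dR (cv f (F f).1) x = 0 → ConeE ((F f).2.1, (F f).2.2) x) ∧
    (dR (cv f (F f).2.1) x = 0 → ConeE ((F f).2.2, (F f).1) x) ∧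
    (dR (cv f (F f).2.2) x = 0 → ConeE ((F f).1, (F f).2.1) x) := by
  have h := cramer hf x
  have hD := Df_pos hf
  obtain ⟨a1, a2, a3⟩ := hx
  set A1 := dR (cv f (F f).1) x
  set A2 := dR (cv f (F f).2.1) x
  set A3 := dR (cv f (F f).2.2) x
  have h2 : x = (A1 / Df f) • toR (P (F f).1) + (A2 / Df f) • toR (P (F f).2.1) +
      (A3 / Df f) • toR (P (F f).2.2) := by
    have h3 : (Df f)⁻¹ • (Df f • x) = x := by rw [smul_smul, inv_mul_cancel₀ hD.ne', one_smul]
    rw [h, smul_add, smul_add, smul_smul, smul_smul, smul_smul] at h3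
    simp only [div_eq_inv_mul]
    exact h3.symm
  refine ⟨fun hz => ?_, fun hz => ?_, fun hz => ?_⟩
  · refine ⟨A2 / Df f, A3 / Df f, by positivity, by positivity, ?_⟩
    rw [hz] at h2
    simpa using h2
  · refine ⟨A3 / Df f, A1 / Df f, by positivity, by positivity, ?_⟩
    rw [hz] at h2
    rw [add_comm]
    simpa using h2
  · refine ⟨A1 / Df f, A2 / Df f, by positivity, by positivity, ?_⟩
    rw [hz] at h2
    simpa using h2

/-- the index of a vertex number -/
def ix (n : ℕ) : Fin 12 := Fin.ofNat 12 n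

lemma ix_val {n : ℕ} (h : n < 12) : (ix n).val = n := by
  simp only [ix, Fin.ofNat]; exact Nat.mod_eq_of_lt h

lemma face_adj' {f : ℕ} (hf : f < 20) : G12.Adj (ix (F f).1) (ix (F f).2.1) ∧
    G12.Adj (ix (F f).2.1) (ix (F f).2.2) ∧ G12.Adj (ix (F f).2.2) (ix (F f).1) := by
  obtain ⟨h1, h2, h3, -⟩ := face_facts f hf
  obtain ⟨a1, a2, a3⟩ := face_adj f hf
  refine ⟨?_, ?_, ?_⟩
  · change adjB _ _ = true; rw [ix_val h1, ix_val h2]; exact a1
  · change adjB _ _ = true; rw [ix_val h2, ix_val h3]; exact a2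
  · change adjB _ _ = true; rw [ix_val h3, ix_val h1]; exact a3

lemma arc_iff {a b : ℕ} (ha : a < 12) (hb : b < 12) {x : Fin 3 → ℝ} :
    x ∈ arc (v12 (ix a)) (v12 (ix b)) ↔ x ∈ S2 ∧ ConeE (a, b) x := by
  constructor
  · intro h
    have := arc_coneE h
    rw [ix_val ha, ix_val hb] at this
    exact ⟨h.1, this⟩
  · rintro ⟨h1, h2⟩
    apply coneE_arc h1
    rw [ix_val ha, ix_val hb]; exact h2

/-- boundary description: in the closed triangle but not in the open one = on one of the arcs -/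
lemma boundary_iff {f : ℕ} (hf : f < 20) {x : Fin 3 → ℝ} (hx : x ∈ S2) :
    (InCone f x ∧ ¬ InOpen f x) ↔ x ∈ arc (v12 (ix (F f).1)) (v12 (ix (F f).2.1)) ∪
      arc (v12 (ix (F f).2.1)) (v12 (ix (F f).2.2)) ∪
      arc (v12 (ix (F f).2.2)) (v12 (ix (F f).1)) := by
  obtain ⟨h1, h2, h3, n1, n2, n3, hD⟩ := face_facts f hf
  simp only [mem_union, arc_iff h1 h2, arc_iff h2 h3, arc_iff h3 h1]
  constructor
  · rintro ⟨hc, ho⟩
    obtain ⟨e1, e2, e3⟩ := on_edge hf hc
    by_cases z1 : dR (cv f (F f).1) x = 0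
    · left; right; exact ⟨hx, e1 z1⟩
    by_cases z2 : dR (cv f (F f).2.1) x = 0
    · right; exact ⟨hx, e2 z2⟩
    by_cases z3 : dR (cv f (F f).2.2) x = 0
    · left; left; exact ⟨hx, e3 z3⟩
    exfalso
    apply ho
    exact ⟨lt_of_le_of_ne hc.1 (Ne.symm z1), lt_of_le_of_ne hc.2.1 (Ne.symm z2),
      lt_of_le_of_ne hc.2.2 (Ne.symm z3)⟩
  · have hel : ∀ a b : ℕ, (ha : a < 12) → (hb : b < 12) → G12.Adj (ix a) (ix b) →
        (a, b) ∈ El ∨ (b, a) ∈ El := by
      intro a b ha hb hab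
      have := adj_edge hab
      rwa [ix_val ha, ix_val hb] at this
    have hno : ∀ a b : ℕ, (ha : a < 12) → (hb : b < 12) → G12.Adj (ix a) (ix b) →
        ConeE (a, b) x → ¬ InOpen f x := by
      intro a b ha hb hab hc
      rcases hel a b ha hb hab with h | h
      · exact edge_not_open h hf hc
      · exact edge_not_open h hf hc.swap
    have hin : ∀ a b : ℕ, InCone f (toR (P a)) → InCone f (toR (P b)) → ConeE (a, b) x →
        InCone f x := by
      rintro a b ha hb ⟨s, t, hs, ht, rfl⟩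
      exact inCone_comb ha hb hb ⟨s, t, 0, hs, ht, le_refl _, by simp⟩
    have c1 := corner_inCone hf (Or.inl rfl : (F f).1 = (F f).1 ∨ (F f).1 = (F f).2.1 ∨ _)
    have c2 := corner_inCone hf (Or.inr (Or.inl rfl) : (F f).2.1 = (F f).1 ∨
      (F f).2.1 = (F f).2.1 ∨ (F f).2.1 = (F f).2.2)
    have c3 := corner_inCone hf (Or.inr (Or.inr rfl) : (F f).2.2 = (F f).1 ∨
      (F f).2.2 = (F f).2.1 ∨ (F f).2.2 = (F f).2.2)
    obtain ⟨a1, a2, a3⟩ := face_adj' hf
    rintro ((⟨-, h⟩ | ⟨-, h⟩) | ⟨-, h⟩)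
    · exact ⟨hin _ _ c1 c2 h, hno _ _ h1 h2 a1 h⟩
    · exact ⟨hin _ _ c2 c3 h, hno _ _ h2 h3 a2 h⟩
    · exact ⟨hin _ _ c3 c1 h, hno _ _ h3 h1 a3 h⟩

/-- every point of the sphere off the edges is in an open triangle -/
lemma compl_sub {x : Fin 3 → ℝ} (hx : x ∈ S2 \ skeleton G12 v12) : ∃ f < 20, x ∈ Uc f := by
  obtain ⟨f, hf, hc⟩ := cover x
  refine ⟨f, hf, hx.1, ?_⟩
  by_contra ho
  apply hx.2
  obtain ⟨a1, a2, a3⟩ := face_adj' hf
  rcases (boundary_iff hf hx.1).mp ⟨hc, ho⟩ with (h | h) | h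
  · exact ⟨_, _, a1, h⟩
  · exact ⟨_, _, a2, h⟩
  · exact ⟨_, _, a3, h⟩

/-- the connected components of the complement of the edges are the open triangles -/
lemma component {f : ℕ} (hf : f < 20) {x : Fin 3 → ℝ} (hx : x ∈ Uc f) :
    connectedComponentIn (S2 \ skeleton G12 v12) x = Uc f := by
  have hxX := Uc_sub hf hx
  apply Subset.antisymm
  · set C := connectedComponentIn (S2 \ skeleton G12 v12) x with hC
    have hCp : IsPreconnected C := isPreconnected_connectedComponentIn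
    have hCX : C ⊆ S2 \ skeleton G12 v12 := connectedComponentIn_subset _ _
    have hxC : x ∈ C := mem_connectedComponentIn hxX
    have hopen : IsOpen (⋃ g ∈ {g : ℕ | g < 20 ∧ g ≠ f}, Oc g) :=
      isOpen_biUnion fun g _ => Oc_open g
    have hdisj : Disjoint (Oc f) (⋃ g ∈ {g : ℕ | g < 20 ∧ g ≠ f}, Oc g) := by
      rw [Set.disjoint_left]
      intro y hy hy'
      simp only [mem_iUnion] at hy'
      obtain ⟨g, ⟨hg, hgf⟩, hyg⟩ := hy'
      exact disj hg hf hgf (InOpen.inCone hyg) hy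
    have hcov : C ⊆ Oc f ∪ ⋃ g ∈ {g : ℕ | g < 20 ∧ g ≠ f}, Oc g := by
      intro y hy
      obtain ⟨g, hg, hyg⟩ := compl_sub (hCX hy)
      by_cases h : g = f
      · subst h; exact Or.inl hyg.2
      · right
        simp only [mem_iUnion]
        exact ⟨g, ⟨hg, h⟩, hyg.2⟩
    have := hCp.subset_left_of_subset_union (Oc_open f) hopen hdisj hcov ⟨x, hxC, hx.2⟩
    intro y hy
    exact ⟨(hCX hy).1, this hy⟩
  · exact (Uc_preconn f).subset_connectedComponentIn hx (Uc_sub hf)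

lemma Kc_closed (f : ℕ) : IsClosed {x | InCone f x} := by
  have : {x | InCone f x} = {x | 0 ≤ dR (cv f (F f).1) x} ∩ ({x | 0 ≤ dR (cv f (F f).2.1) x} ∩
      {x | 0 ≤ dR (cv f (F f).2.2) x}) := by
    ext x; rfl
  rw [this]
  exact (isClosed_le continuous_const (dR_cont _)).inter
    ((isClosed_le continuous_const (dR_cont _)).inter (isClosed_le continuous_const (dR_cont _)))

/-- the centre of each face, an interior point -/
lemma centre_in : ∀ f < 20,
    0 < Z3.dot (cv f (F f).1) (Z3.add (P (F f).1) (Z3.add (P (F f).2.1) (P (F f).2.2))) ∧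
    0 < Z3.dot (cv f (F f).2.1) (Z3.add (P (F f).1) (Z3.add (P (F f).2.1) (P (F f).2.2))) ∧
    0 < Z3.dot (cv f (F f).2.2) (Z3.add (P (F f).1) (Z3.add (P (F f).2.1) (P (F f).2.2))) := by
  decide +kernel

lemma closure_Uc {f : ℕ} (hf : f < 20) : closure (Uc f) = S2 ∩ {x | InCone f x} := by
  apply Subset.antisymm
  · apply closure_minimal
    · rintro x ⟨h1, h2⟩
      exact ⟨h1, InOpen.inCone h2⟩
    · exact S2_closed.inter (Kc_closed f)
  · rintro x ⟨hx, hc⟩
    set c : Fin 3 → ℝ := toR (Z3.add (P (F f).1) (Z3.add (P (F f).2.1) (P (F f).2.2))) with hcdef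
    obtain ⟨d1, d2, d3⟩ := centre_in f hf
    have d1' : 0 < dR (cv f (F f).1) c := by rw [hcdef, dR_toR]; exact_mod_cast d1
    have d2' : 0 < dR (cv f (F f).2.1) c := by rw [hcdef, dR_toR]; exact_mod_cast d2
    have d3' : 0 < dR (cv f (F f).2.2) c := by rw [hcdef, dR_toR]; exact_mod_cast d3
    have hne : x ≠ 0 := by rintro rfl; exact zero_not_S2 hx
    have hin : ∀ ε : ℝ, 0 < ε → (1:ℝ) • x + ε • c ∈ Oc f := by
      intro ε hε
      refine ⟨?_, ?_, ?_⟩ <;> rw [dR_comb2]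
      · have := hc.1; have := mul_pos hε d1'; linarith
      · have := hc.2.1; have := mul_pos hε d2'; linarith
      · have := hc.2.2; have := mul_pos hε d3'; linarith
    have hcont : ContinuousAt (fun ε : ℝ => nu ((1:ℝ) • x + ε • c)) 0 := by
      apply ContinuousAt.comp (g := nu) (f := fun ε : ℝ => (1:ℝ) • x + ε • c)
      · simp only [zero_smul, add_zero, one_smul]
        exact nu_cont hne
      · fun_prop
    have hlim : Tendsto (fun ε : ℝ => nu ((1:ℝ) • x + ε • c)) (𝓝[>] 0) (𝓝 x) := by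
      have h0 : nu ((1:ℝ) • x + (0:ℝ) • c) = x := by
        simp only [zero_smul, add_zero, one_smul]; exact nu_of_mem hx
      have := hcont.tendsto
      rw [h0] at this
      exact this.mono_left nhdsWithin_le_nhds
    apply mem_closure_of_tendsto hlim
    filter_upwards [self_mem_nhdsWithin] with ε hε
    exact nu_Oc (hin ε hε)

lemma faces12 (U : Set (Fin 3 → ℝ)) (hU : IsFace G12 v12 U) :
    ∃ i j k, IsTriangularFace G12 v12 U i j k := by
  obtain ⟨x, hx, hUx⟩ := hU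
  obtain ⟨f, hf, hxf⟩ := compl_sub hx
  rw [component hf hxf] at hUx
  obtain ⟨a1, a2, a3⟩ := face_adj' hf
  refine ⟨ix (F f).1, ix (F f).2.1, ix (F f).2.2, ⟨x, hx, ?_⟩, a1, a2, a3, ?_⟩
  · rw [component hf hxf, hUx]
  · rw [hUx, closure_Uc hf]
    ext y
    constructor
    · rintro ⟨⟨h1, h2⟩, h3⟩
      exact (boundary_iff hf h1).mp ⟨h2, fun h => h3 ⟨h1, h⟩⟩
    · intro h
      have hy : y ∈ S2 := by
        rcases h with (h | h) | h <;> exact h.1
      obtain ⟨h2, h3⟩ := (boundary_iff hf hy).mpr h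
      exact ⟨⟨hy, h2⟩, fun h => h3 h.2⟩

/-- The example is a shortest-path triangulation of the sphere. -/
theorem spt12 : IsSPT G12 v12 where
  four_le := by norm_num
  mem_sphere := v12_mem
  injective := v12_inj
  not_antipodal := fun i j h => v12_antip i j h.ne
  edges_meet := edges_meet12
  vertex_edge := vertex_edge12
  maximal := card12
  faces := faces12

end Pool.Agent.R157.Short
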