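import Pool.Agent.R157.Short.Cone
import Pool.Agent.R157.Short.Morph

/-! Non-sinkability of the 12-vertex triangulation with short edges (MP_b37e0c_co). -/

namespace Pool.Agent.R157.Short

open Set
open Helper479.Sink (Z3 T2 toR dR toR_0 toR_1 toR_2 dR_toR dR_comb dR_smul dR_add_left dR_smul_left
  dR_zero_left Cone3 toR_add toR_smul cone_split cone_rot split_gen S2 arc skeleton IsFace
  IsTriangularFace IsSPT hA det3 IsMorph IsLongitudinal Sinkable)

def adjB (i j : ℕ) : Bool :=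
  El.any (fun e => (decide (e.1 = i) && decide (e.2 = j)) || (decide (e.1 = j) && decide (e.2 = i)))

/-- The graph of the example. -/
def G12 : SimpleGraph (Fin 12) where
  Adj i j := adjB i.val j.val = true
  symm := by
    have : ∀ i j : Fin 12, adjB i.val j.val = true → adjB j.val i.val = true := by decide +kernel
    exact ⟨fun i j h => this i j h⟩
  loopless := ⟨by
    have : ∀ i : Fin 12, ¬ (adjB i.val i.val = true) := by decide +kernel
    exact this⟩

instance : DecidableRel G12.Adj := fun i j => inferInstanceAs (Decidable (adjB i.val j.val = true))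

/-- the squared length of the `i`-th integer vector -/
def nn (i : ℕ) : ℝ := ((Z3.dot (P i) (P i) : ℤ) : ℝ)

lemma nnZ_pos : ∀ i < 12, 0 < Z3.dot (P i) (P i) := by decide +kernel

lemma nn_pos {i : ℕ} (hi : i < 12) : 0 < nn i := by
  unfold nn; exact_mod_cast nnZ_pos i hi

/-- The normalising constants. -/
noncomputable def cc (i : ℕ) : ℝ := (Real.sqrt (nn i))⁻¹

lemma cc_pos {i : ℕ} (hi : i < 12) : 0 < cc i := by
  have := nn_pos hi
  unfold cc; positivity

lemma cc_sq {i : ℕ} (hi : i < 12) : cc i ^ 2 * nn i = 1 := by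
  have := nn_pos hi
  unfold cc
  rw [inv_pow, Real.sq_sqrt this.le, inv_mul_cancel₀ this.ne']

/-- The vertices of the example. -/
noncomputable def v12 (i : Fin 12) : Fin 3 → ℝ := cc i.val • toR (P i.val)

/-- `s` weakly separates face `f` from face `g` -/
def SepF (s : Z3) (f g : ℕ) : Prop := cornersNonneg s f = true ∧ cornersNonpos s g = true

lemma sepF_exists {f g : ℕ} (hf : f < 20) (hg : g < 20) (hne : f ≠ g) :
    ∃ s, SepF s f g ∨ SepF s g f := by
  have key : ∀ f g : ℕ, f < g → g < 20 → ∃ s, SepF s f g := by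
    intro f g hfg hg
    have h := chkFF_true
    simp only [chkFF, List.all_eq_true, List.mem_range, Bool.and_eq_true] at h
    obtain ⟨k, rfl⟩ := Nat.exists_eq_add_of_lt hfg
    have h1 := h f (by omega) k (by omega)
    refine ⟨(FFl.getD f []).getD k ⟨0,0,0⟩, h1.1, ?_⟩
    have : f + k + 1 = f + 1 + k := by ring
    rw [this]; exact h1.2
  rcases Nat.lt_or_gt_of_ne hne with h | h
  · obtain ⟨s, hs⟩ := key f g h hg; exact ⟨s, Or.inl hs⟩
  · obtain ⟨s, hs⟩ := key g f h hf; exact ⟨s, Or.inr hs⟩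

lemma dR_nonneg_of {f : ℕ} (hf : f < 20) {M : Fin 3 → ℝ} (hM : InCone f M) {s : Z3}
    (h1 : 0 ≤ Z3.dot s (P (F f).1)) (h2 : 0 ≤ Z3.dot s (P (F f).2.1))
    (h3 : 0 ≤ Z3.dot s (P (F f).2.2)) : 0 ≤ dR s M := by
  have h := congrArg (dR s) (cramer hf M)
  rw [dR_smul, dR_comb, dR_toR, dR_toR, dR_toR] at h
  have h1' : (0:ℝ) ≤ ((Z3.dot s (P (F f).1) : ℤ) : ℝ) := by exact_mod_cast h1
  have h2' : (0:ℝ) ≤ ((Z3.dot s (P (F f).2.1) : ℤ) : ℝ) := by exact_mod_cast h2
  have h3' : (0:ℝ) ≤ ((Z3.dot s (P (F f).2.2) : ℤ) : ℝ) := by exact_mod_cast h3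
  obtain ⟨m1, m2, m3⟩ := hM
  have : 0 ≤ Df f * dR s M := by rw [h]; positivity
  exact nonneg_of_mul_nonneg_right this (Df_pos hf)

lemma dR_nonpos_of {f : ℕ} (hf : f < 20) {M : Fin 3 → ℝ} (hM : InCone f M) {s : Z3}
    (h1 : Z3.dot s (P (F f).1) ≤ 0) (h2 : Z3.dot s (P (F f).2.1) ≤ 0)
    (h3 : Z3.dot s (P (F f).2.2) ≤ 0) : dR s M ≤ 0 := by
  have h := congrArg (dR s) (cramer hf M)
  rw [dR_smul, dR_comb, dR_toR, dR_toR, dR_toR] at h
  have h1' : ((Z3.dot s (P (F f).1) : ℤ) : ℝ) ≤ 0 := by exact_mod_cast h1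
  have h2' : ((Z3.dot s (P (F f).2.1) : ℤ) : ℝ) ≤ 0 := by exact_mod_cast h2
  have h3' : ((Z3.dot s (P (F f).2.2) : ℤ) : ℝ) ≤ 0 := by exact_mod_cast h3
  obtain ⟨m1, m2, m3⟩ := hM
  have : Df f * dR s M ≤ 0 := by
    rw [h]
    have := mul_nonpos_of_nonneg_of_nonpos m1 h1'
    have := mul_nonpos_of_nonneg_of_nonpos m2 h2'
    have := mul_nonpos_of_nonneg_of_nonpos m3 h3'
    linarith
  by_contra hc
  push Not at hc
  have := mul_pos (Df_pos hf) hc
  linarith

lemma InOpen.inCone {f : ℕ} {M : Fin 3 → ℝ} (h : InOpen f M) : InCone f M :=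
  ⟨h.1.le, h.2.1.le, h.2.2.le⟩

lemma dR_pos_of {f : ℕ} (hf : f < 20) {M : Fin 3 → ℝ} (hM : InOpen f M) {s : Z3}
    (h : cornersNonneg s f = true) : 0 < dR s M := by
  simp only [cornersNonneg, Bool.and_eq_true, Bool.or_eq_true, decide_eq_true_eq] at h
  obtain ⟨⟨⟨h1, h2⟩, h3⟩, h4⟩ := h
  have hh := congrArg (dR s) (cramer hf M)
  rw [dR_smul, dR_comb, dR_toR, dR_toR, dR_toR] at hh
  have h1' : (0:ℝ) ≤ ((Z3.dot s (P (F f).1) : ℤ) : ℝ) := by exact_mod_cast h1
  have h2' : (0:ℝ) ≤ ((Z3.dot s (P (F f).2.1) : ℤ) : ℝ) := by exact_mod_cast h2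
  have h3' : (0:ℝ) ≤ ((Z3.dot s (P (F f).2.2) : ℤ) : ℝ) := by exact_mod_cast h3
  obtain ⟨m1, m2, m3⟩ := hM
  have a1 := mul_nonneg m1.le h1'
  have a2 := mul_nonneg m2.le h2'
  have a3 := mul_nonneg m3.le h3'
  have : 0 < Df f * dR s M := by
    rw [hh]
    rcases h4 with (h4 | h4) | h4
    · have h4' : (0:ℝ) < ((Z3.dot s (P (F f).1) : ℤ) : ℝ) := by exact_mod_cast h4
      have := mul_pos m1 h4'
      linarith
    · have h4' : (0:ℝ) < ((Z3.dot s (P (F f).2.1) : ℤ) : ℝ) := by exact_mod_cast h4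
      have := mul_pos m2 h4'
      linarith
    · have h4' : (0:ℝ) < ((Z3.dot s (P (F f).2.2) : ℤ) : ℝ) := by exact_mod_cast h4
      have := mul_pos m3 h4'
      linarith
  exact (pos_iff_pos_of_mul_pos this).mp (Df_pos hf)

lemma dR_neg_of {f : ℕ} (hf : f < 20) {M : Fin 3 → ℝ} (hM : InOpen f M) {s : Z3}
    (h : cornersNonpos s f = true) : dR s M < 0 := by
  simp only [cornersNonpos, Bool.and_eq_true, Bool.or_eq_true, decide_eq_true_eq] at h
  obtain ⟨⟨⟨h1, h2⟩, h3⟩, h4⟩ := h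
  have hh := congrArg (dR s) (cramer hf M)
  rw [dR_smul, dR_comb, dR_toR, dR_toR, dR_toR] at hh
  have h1' : ((Z3.dot s (P (F f).1) : ℤ) : ℝ) ≤ 0 := by exact_mod_cast h1
  have h2' : ((Z3.dot s (P (F f).2.1) : ℤ) : ℝ) ≤ 0 := by exact_mod_cast h2
  have h3' : ((Z3.dot s (P (F f).2.2) : ℤ) : ℝ) ≤ 0 := by exact_mod_cast h3
  obtain ⟨m1, m2, m3⟩ := hM
  have a1 := mul_nonpos_of_nonneg_of_nonpos m1.le h1'
  have a2 := mul_nonpos_of_nonneg_of_nonpos m2.le h2'
  have a3 := mul_nonpos_of_nonneg_of_nonpos m3.le h3'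
  have : Df f * dR s M < 0 := by
    rw [hh]
    rcases h4 with (h4 | h4) | h4
    · have h4' : ((Z3.dot s (P (F f).1) : ℤ) : ℝ) < 0 := by exact_mod_cast h4
      have := mul_neg_of_pos_of_neg m1 h4'
      linarith
    · have h4' : ((Z3.dot s (P (F f).2.1) : ℤ) : ℝ) < 0 := by exact_mod_cast h4
      have := mul_neg_of_pos_of_neg m2 h4'
      linarith
    · have h4' : ((Z3.dot s (P (F f).2.2) : ℤ) : ℝ) < 0 := by exact_mod_cast h4
      have := mul_neg_of_pos_of_neg m3 h4'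
      linarith
  by_contra hc
  push Not at hc
  have := mul_nonneg (Df_pos hf).le hc
  linarith

/-- a closed face cone does not meet the open cone of another face -/
lemma disj {f g : ℕ} (hf : f < 20) (hg : g < 20) (hne : f ≠ g) {M : Fin 3 → ℝ}
    (h1 : InCone f M) (h2 : InOpen g M) : False := by
  obtain ⟨s, ⟨ha, hb⟩ | ⟨ha, hb⟩⟩ := sepF_exists hf hg hne
  · have := dR_neg_of hg h2 hb
    simp only [cornersNonneg, Bool.and_eq_true, Bool.or_eq_true, decide_eq_true_eq] at ha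
    have := dR_nonneg_of hf h1 ha.1.1.1 ha.1.1.2 ha.1.2
    linarith
  · have := dR_pos_of hg h2 ha
    simp only [cornersNonpos, Bool.and_eq_true, Bool.or_eq_true, decide_eq_true_eq] at hb
    have := dR_nonpos_of hf h1 hb.1.1.1 hb.1.1.2 hb.1.2
    linarith

/-- sum of the vertex coefficients of a face -/
lemma sum_face {g : ℕ} (hg : g < 20) (ζ : ℕ → ℝ) (N : Fin 3 → ℝ) :
    ∑ i ∈ Finset.range 12, ζ i * dR (cv g i) N =
      ζ (F g).1 * dR (cv g (F g).1) N + ζ (F g).2.1 * dR (cv g (F g).2.1) N +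
        ζ (F g).2.2 * dR (cv g (F g).2.2) N := by
  obtain ⟨h1, h2, h3, n1, n2, n3, -⟩ := face_facts g hg
  have hsub : ({(F g).1, (F g).2.1, (F g).2.2} : Finset ℕ) ⊆ Finset.range 12 := by
    intro x hx
    simp only [Finset.mem_insert, Finset.mem_singleton] at hx
    rw [Finset.mem_range]
    rcases hx with rfl | rfl | rfl <;> assumption
  rw [← Finset.sum_subset hsub]
  · rw [Finset.sum_insert, Finset.sum_insert, Finset.sum_singleton]
    · ring
    · simpa using n3.symm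
    · simp only [Finset.mem_insert, Finset.mem_singleton, not_or]
      exact ⟨n1.symm, n2.symm⟩
  · intro i _ hi
    simp only [Finset.mem_insert, Finset.mem_singleton, not_or] at hi
    rw [cv_other hi.1 hi.2.1 hi.2.2, dR_zero_left, mul_zero]

lemma sum_W (lam : List (ℕ × ℕ)) (ζ : ℕ → ℝ) (N : Fin 3 → ℝ) :
    (lam.map (fun p => (p.2 : ℝ) * ∑ i ∈ Finset.range 12, ζ i * dR (cv p.1 i) N)).sum =
      ∑ i ∈ Finset.range 12, ζ i * dR (W lam i) N := by
  induction lam with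
  | nil => simp [W, dR_zero_left]
  | cons p l ih =>
    rw [List.map_cons, List.sum_cons, ih, Finset.mul_sum, ← Finset.sum_add_distrib]
    apply Finset.sum_congr rfl
    intro i _
    have : W (p :: l) i = Z3.add (Z3.smul p.2 (cv p.1 i)) (W l i) := rfl
    rw [this, dR_add_left, dR_smul_left]
    push_cast; ring

lemma face_adj : ∀ f < 20, adjB (F f).1 (F f).2.1 = true ∧ adjB (F f).2.1 (F f).2.2 = true ∧
    adjB (F f).2.2 (F f).1 = true := by
  decide +kernel

lemma hA_sc (c d : ℝ) (p q : Z3) :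
    hA (c • toR p) (d • toR q) = c * d * ((Z3.cross p q).z : ℝ) := by
  simp only [hA, Pi.smul_apply, smul_eq_mul, toR_0, toR_1, Z3.cross]
  push_cast
  ring

lemma det3_sc (c d e : ℝ) (p q r : Z3) :
    det3 (c • toR p) (d • toR q) (e • toR r) =
      c * d * e * ((Z3.dot (Z3.cross q r) p : ℤ) : ℝ) := by
  simp only [det3, hA, Pi.smul_apply, smul_eq_mul, toR_0, toR_1, toR_2, Z3.dot, Z3.cross]
  push_cast
  ring

lemma cv1' (f : ℕ) : cv f (F f).1 = Z3.cross (P (F f).2.1) (P (F f).2.2) := cv1 f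

/-- only face `0` surrounds the north pole -/
lemma north_only : ∀ g < 20, g ≠ 0 → ¬ (0 < (Z3.cross (P (F g).2.1) (P (F g).2.2)).z ∧
    0 < (Z3.cross (P (F g).2.2) (P (F g).1)).z ∧ 0 < (Z3.cross (P (F g).1) (P (F g).2.1)).z) := by
  decide +kernel

def NN : Fin 3 → ℝ := ![0, 0, 1]

lemma dR_NN (w : Z3) : dR w NN = (w.z : ℝ) := by simp [dR, NN]

/-- The example is not sinkable. -/
theorem no_sink : ¬ SinkableE G12 v12 := by
  rintro ⟨γ, hm, hl, h0, hs⟩
  obtain ⟨hp, hW⟩ := lam_ok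
  -- scaling factors at time 1
  have hsc : ∀ i : Fin 12, ∃ c : ℝ, 0 < c ∧ γ 1 i 0 = c * γ 0 i 0 ∧ γ 1 i 1 = c * γ 0 i 1 := by
    intro i
    obtain ⟨-, c, hc, h1, h2⟩ := hl.stays 1 (by simp) i
    exact ⟨c, hc, h1, h2⟩
  choose s hspos hs0 hs1 using hsc
  let u : ℕ → Fin 12 := fun n => Fin.ofNat 12 n
  have hu : ∀ n, n < 12 → (u n).val = n := fun n hn => by
    simp only [u, Fin.ofNat, Fin.val_mk]; exact Nat.mod_eq_of_lt hn
  let ζ : ℕ → ℝ := fun n => γ 1 (u n) 2 / (s (u n) * cc (u n).val)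
  have hζ : ∀ n, ζ n < 0 := fun n => div_neg_of_neg_of_pos (hs _)
    (mul_pos (hspos _) (cc_pos (u n).isLt))
  have hγ0 : ∀ i, γ 0 i = cc i.val • toR (P i.val) := fun i => by rw [h0]; rfl
  -- each face in the certificate is positive at time 1
  have hpos : ∀ g, g < 20 → g ≠ 0 →
      0 < ∑ i ∈ Finset.range 12, ζ i * dR (cv g i) NN := by
    intro g hg hgf
    obtain ⟨h1, h2, h3, n1, n2, n3, hD⟩ := face_facts g hg
    obtain ⟨a1, a2, a3⟩ := face_adj g hg
    have ad1 : G12.Adj (u (F g).1) (u (F g).2.1) := by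
      change adjB _ _ = true; rw [hu _ h1, hu _ h2]; exact a1
    have ad2 : G12.Adj (u (F g).2.1) (u (F g).2.2) := by
      change adjB _ _ = true; rw [hu _ h2, hu _ h3]; exact a2
    have ad3 : G12.Adj (u (F g).2.2) (u (F g).1) := by
      change adjB _ _ = true; rw [hu _ h3, hu _ h1]; exact a3
    have k1 := cc_pos h1
    have k2 := cc_pos h2
    have k3 := cc_pos h3
    have e1 : hA (γ 0 (u (F g).2.1)) (γ 0 (u (F g).2.2)) =
        cc (F g).2.1 * cc (F g).2.2 * dR (cv g (F g).1) NN := by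
      rw [hγ0, hγ0, hu _ h2, hu _ h3, hA_sc, cv1, dR_NN]
    have e2 : hA (γ 0 (u (F g).2.2)) (γ 0 (u (F g).1)) =
        cc (F g).2.2 * cc (F g).1 * dR (cv g (F g).2.1) NN := by
      rw [hγ0, hγ0, hu _ h3, hu _ h1, hA_sc, cv2 hg, dR_NN]
    have e3 : hA (γ 0 (u (F g).1)) (γ 0 (u (F g).2.1)) =
        cc (F g).1 * cc (F g).2.1 * dR (cv g (F g).2.2) NN := by
      rw [hγ0, hγ0, hu _ h1, hu _ h2, hA_sc, cv3 hg, dR_NN]
    have hdet : 0 < det3 (γ 0 (u (F g).1)) (γ 0 (u (F g).2.1)) (γ 0 (u (F g).2.2)) := by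
      rw [hγ0, hγ0, hγ0, det3_sc, hu _ h1, hu _ h2, hu _ h3]
      have : (0:ℝ) < ((Z3.dot (Z3.cross (P (F g).2.1) (P (F g).2.2)) (P (F g).1) : ℤ) : ℝ) := by
        exact_mod_cast hD
      positivity
    have hN : ¬ (0 < hA (γ 0 (u (F g).2.1)) (γ 0 (u (F g).2.2)) ∧
        0 < hA (γ 0 (u (F g).2.2)) (γ 0 (u (F g).1)) ∧
        0 < hA (γ 0 (u (F g).1)) (γ 0 (u (F g).2.1))) := by
      rintro ⟨q1, q2, q3⟩
      rw [e1, dR_NN, cv1] at q1; rw [e2, dR_NN, cv2 hg] at q2; rw [e3, dR_NN, cv3 hg] at q3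
      have r1 := (pos_iff_pos_of_mul_pos q1).mp (by positivity)
      have r2 := (pos_iff_pos_of_mul_pos q2).mp (by positivity)
      have r3 := (pos_iff_pos_of_mul_pos q3).mp (by positivity)
      exact north_only g hg hgf ⟨by exact_mod_cast r1, by exact_mod_cast r2, by exact_mod_cast r3⟩
    have hfl := flipE hm hl hs ad1 ad2 ad3 hdet hN
    rw [sum_face hg]
    have hA1 : ∀ i j, hA (γ 1 i) (γ 1 j) = s i * s j * hA (γ 0 i) (γ 0 j) := by
      intro i j; unfold hA; rw [hs0, hs0, hs1, hs1]; ring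
    unfold det3 at hfl
    rw [hA1, hA1, hA1, e1, e2, e3] at hfl
    have p1 := hspos (u (F g).1); have p2 := hspos (u (F g).2.1); have p3 := hspos (u (F g).2.2)
    have key : γ 1 (u (F g).1) 2 * (s (u (F g).2.1) * s (u (F g).2.2) *
          (cc (F g).2.1 * cc (F g).2.2 * dR (cv g (F g).1) NN)) +
        γ 1 (u (F g).2.1) 2 * (s (u (F g).2.2) * s (u (F g).1) *
          (cc (F g).2.2 * cc (F g).1 * dR (cv g (F g).2.1) NN)) +
        γ 1 (u (F g).2.2) 2 * (s (u (F g).1) * s (u (F g).2.1) *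
          (cc (F g).1 * cc (F g).2.1 * dR (cv g (F g).2.2) NN)) =
        (cc (F g).1 * cc (F g).2.1 * cc (F g).2.2 *
          (s (u (F g).1) * s (u (F g).2.1) * s (u (F g).2.2))) *
        (ζ (F g).1 * dR (cv g (F g).1) NN +
          ζ (F g).2.1 * dR (cv g (F g).2.1) NN +
          ζ (F g).2.2 * dR (cv g (F g).2.2) NN) := by
      simp only [ζ]
      rw [hu _ h1, hu _ h2, hu _ h3]
      field_simp
    rw [key] at hfl
    exact (pos_iff_pos_of_mul_pos hfl).mp (by positivity)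
  have hsum : 0 < (LAM.map (fun p => (p.2 : ℝ) *
      ∑ i ∈ Finset.range 12, ζ i * dR (cv p.1 i) NN)).sum := by
    apply List.sum_pos
    · intro x hx
      rw [List.mem_map] at hx
      obtain ⟨p, hpl, rfl⟩ := hx
      obtain ⟨q1, q2, q3⟩ := hp p hpl
      have := hpos p.1 q2 q1
      have q3' : (0:ℝ) < (p.2 : ℝ) := by exact_mod_cast q3
      positivity
    · simp [LAM]
  rw [sum_W] at hsum
  have : ∑ i ∈ Finset.range 12, ζ i * dR (W LAM i) NN ≤ 0 := by
    apply Finset.sum_nonpos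
    intro i hi
    rw [dR_NN]
    have := hW i (Finset.mem_range.mp hi)
    exact mul_nonpos_of_nonpos_of_nonneg (hζ i).le (by exact_mod_cast this)
  linarith

end Pool.Agent.R157.Short
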